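import Mathlib
import Pool.Agent.X151.LF.Semi

/-!
# An extremal problem for polynomials that detects invariant line fields

Let `f_c (z) = z ^ d + c`, `d ≥ 2`, with filled Julia set `K_c`, and let `L_c` be the linear functional on
polynomials with `L_c (z ^ (d - 2)) = 1`, `L_c (z ^ k) = 0` if `d` does not divide `k + 2`, and
`L_c (z ^ (2 d - 2 + d j)) = L_c ((z - c) ^ j) / d`. Let `λ(c)` be the infimum of the `L¹(K_c)` norms of the
polynomials `p` with `L_c p = 1`. Then `λ` is upper semicontinuous, and if `K_c` has empty interior then `λ(c) > 0`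
exactly when the Julia set carries an invariant line field, which is then unique up to a constant factor and is given
by the functional.
-/

set_option autoImplicit false

open Filter Topology Metric MeasureTheory Set

namespace Pool.Agent.Results.MP_70a088_an.LineFieldDuality

open Pool.Agent.X151.LF

/-- `μ` is an invariant line field for `z ^ d + c` supported on the Julia set -/
structure LineField (d : ℕ) (c : ℂ) (μ : ℂ → ℂ) : Prop where
  meas : Measurable μ
  unit : ∀ z, ‖μ z‖ = 1 ∨ μ z = 0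
  supp : ∀ z, μ z ≠ 0 → z ∈ frontier (K d c)
  pos : 0 < volume {z | μ z ≠ 0}
  inv : ∀ᵐ z, μ (f d c z) * (starRingEnd ℂ) (deriv (f d c) z) / deriv (f d c) z = μ z

theorem LineField.bd {d : ℕ} (hd : 2 ≤ d) {c : ℂ} {μ : ℂ → ℂ} (h : LineField d c μ) :
    Bd d c μ 1 := by
  refine ⟨h.meas, fun z => ?_, fun z hz => ?_⟩
  · rcases h.unit z with h1 | h1
    · exact h1.le
    · rw [h1, norm_zero]
      exact zero_le_one
  · by_contra hne
    have := (isClosed_K hd c).frontier_subset (h.supp z hne)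
    exact hz this

theorem LineField.pb_eq {d : ℕ} {c : ℂ} {μ : ℂ → ℂ} (h : LineField d c μ) :
    pb d c μ =ᵐ[volume] μ := h.inv

theorem norm_le {d : ℕ} (hd : 2 ≤ d) {c : ℂ} {μ : ℂ → ℂ} (h : LineField d c μ) :
    ‖∫ z, μ z * z ^ (d - 2)‖ ≤ lam d c := by
  refine le_lam hd fun p => ?_
  rw [← norm_mul, ← int_eval hd (h.bd hd) h.pb_eq p, ← integral_indicator (isCompact_K hd c).measurableSet]
  refine norm_integral_le_of_norm_le ?_ (Eventually.of_forall fun z => ?_)
  · rw [integrable_indicator_iff (isCompact_K hd c).measurableSet]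
    exact p.continuous.norm.continuousOn.integrableOn_compact (isCompact_K hd c)
  · rw [norm_mul]
    by_cases hz : z ∈ K d c
    · rw [indicator_of_mem hz]
      exact mul_le_of_le_one_left (norm_nonneg _) ((h.bd hd).bound z)
    · rw [indicator_of_notMem hz, (h.bd hd).supp z hz, norm_zero, zero_mul]

theorem lam_eq {d : ℕ} (hd : 2 ≤ d) {c : ℂ} (hint : interior (K d c) = ∅) {μ : ℂ → ℂ}
    (h : LineField d c μ) : lam d c = ‖∫ z, μ z * z ^ (d - 2)‖ := by
  refine le_antisymm ?_ (norm_le hd h)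
  by_contra hcon
  rw [not_le] at hcon
  have hb : 0 < lam d c := (norm_nonneg _).trans_lt hcon
  obtain ⟨-, μ', hμ', hinv, hone⟩ := exists_of_bound hd hint (C := 1 / lam d c) fun p => by
    have := lam_le d c p
    rw [div_mul_eq_mul_div, one_mul, le_div_iff₀ hb, mul_comm]
    exact this
  have h1 := unique hd hint (h.bd hd) hμ' h.pb_eq hinv
  rw [hone] at h1
  have h2 : ∀ᵐ z, ¬ μ z ≠ 0 := by
    filter_upwards [h1] with z hz hne
    have h3 : ‖μ z‖ = 1 := (h.unit z).resolve_right hne
    rw [one_mul] at hz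
    rw [hz, norm_mul] at h3
    have h4 : ‖∫ z, μ z * z ^ (d - 2)‖ * ‖μ' z‖ ≤ ‖∫ z, μ z * z ^ (d - 2)‖ * (1 / lam d c) :=
      mul_le_mul_of_nonneg_left (hμ'.bound z) (norm_nonneg _)
    have h5 : ‖∫ z, μ z * z ^ (d - 2)‖ * (1 / lam d c) < 1 := by
      rw [mul_one_div, div_lt_one hb]
      exact hcon
    linarith
  rw [ae_iff] at h2
  simp only [ne_eq, not_not] at h2
  exact h.pos.ne' h2

theorem exists_lineField {d : ℕ} (hd : 2 ≤ d) {c : ℂ} (hint : interior (K d c) = ∅)
    (hb : 0 < lam d c) : ∃ μ, LineField d c μ := by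
  obtain ⟨-, μ', hμ', hinv, hone⟩ := exists_of_bound hd hint (C := 1 / lam d c) fun p => by
    have := lam_le d c p
    rw [div_mul_eq_mul_div, one_mul, le_div_iff₀ hb, mul_comm]
    exact this
  obtain ⟨h1, h2⟩ := phase hμ' hinv
  have hK : frontier (K d c) = K d c := by
    rw [(isClosed_K hd c).frontier_eq, hint, sdiff_empty]
  refine ⟨_, h1.meas, fun z => ?_, fun z hz => ?_, ?_, h2⟩
  · by_cases h0 : μ' z = 0
    · right
      rw [h0, zero_div]
    · left
      rw [norm_div, Complex.norm_real, norm_norm, div_self (norm_ne_zero_iff.2 h0)]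
  · rw [hK]
    by_contra hcon
    exact hz (h1.supp z hcon)
  · rw [pos_iff_ne_zero]
    intro h0
    have h3 : ∀ᵐ z, μ' z = 0 := by
      have h4 : ∀ᵐ z, ¬ (μ' z / (‖μ' z‖ : ℂ) ≠ 0) := by
        rw [ae_iff]
        simpa using h0
      filter_upwards [h4] with z hz
      rw [not_not, div_eq_zero_iff] at hz
      rcases hz with h5 | h5
      · exact h5
      · exact norm_eq_zero.1 (by exact_mod_cast h5)
    have h4 : ∫ z, μ' z * z ^ (d - 2) = 0 := by
      have : (fun z => μ' z * z ^ (d - 2)) =ᵐ[volume] fun _ => (0 : ℂ) := by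
        filter_upwards [h3] with z hz
        rw [hz, zero_mul]
      rw [integral_congr_ae this, integral_zero]
    rw [h4] at hone
    exact zero_ne_one hone

theorem L_shift {d : ℕ} (hd : 2 ≤ d) (c : ℂ) (j : ℕ) :
    L d c (Polynomial.X ^ (2 * d - 2 + d * j)) =
      (1 / (d : ℂ)) * L d c ((Polynomial.X - Polynomial.C c) ^ j) := by
  have e : ((Polynomial.X - Polynomial.C c) ^ j : Polynomial ℂ) = ∑ i ∈ Finset.range (j + 1),
      ((j.choose i : ℂ) * (-c) ^ (j - i)) • (Polynomial.X ^ i : Polynomial ℂ) := by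
    rw [sub_eq_add_neg, add_pow]
    refine Finset.sum_congr rfl fun i _ => ?_
    rw [Polynomial.smul_eq_C_mul, Polynomial.C_mul, Polynomial.C_pow, Polynomial.C_neg,
      Polynomial.C_eq_natCast]
    ring
  have h1 : L d c ((Polynomial.X - Polynomial.C c) ^ j) = Llin d c ((Polynomial.X - Polynomial.C c) ^ j) :=
    rfl
  rw [L_X_pow, M_rec hd, h1, e, map_sum]
  congr 1
  refine Finset.sum_congr rfl fun i _ => ?_
  rw [map_smul, smul_eq_mul]
  congr 1
  exact (L_X_pow d c i).symm

/-- **Invariant line fields and an extremal problem for polynomials.** -/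
theorem result (d : ℕ) (hd : 2 ≤ d) :
    -- the functional `L`
    (∀ c : ℂ, L d c (Polynomial.X ^ (d - 2)) = 1 ∧
      (∀ k : ℕ, ¬ d ∣ k + 2 → L d c (Polynomial.X ^ k) = 0) ∧
      ∀ j : ℕ, L d c (Polynomial.X ^ (2 * d - 2 + d * j)) =
        (1 / (d : ℂ)) * L d c ((Polynomial.X - Polynomial.C c) ^ j)) ∧
    -- the extremal value `λ` is upper semicontinuous in the parameter
    UpperSemicontinuous (lam d) ∧
    ∀ c : ℂ, interior (K d c) = ∅ →
      -- it detects invariant line fields
      ((∃ μ, LineField d c μ) ↔ 0 < lam d c) ∧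
      ∀ μ, LineField d c μ →
        -- it is their moment of order `d - 2`
        lam d c = ‖∫ z, μ z * z ^ (d - 2)‖ ∧
        -- the functional is integration against the line field
        (∀ p : Polynomial ℂ, ∫ z, μ z * p.eval z = (∫ z, μ z * z ^ (d - 2)) * L d c p) ∧
        -- and the line field is unique up to a constant factor
        ∀ μ', LineField d c μ' → ∃ u : ℂ, ‖u‖ = 1 ∧ ∀ᵐ z, μ' z = u * μ z := by
  refine ⟨fun c => ⟨by rw [L_X_pow, M_first hd], fun k hk => by rw [L_X_pow, M_off c hk], L_shift hd c⟩,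
    usc hd, fun c hint => ⟨⟨?_, exists_lineField hd hint⟩, fun μ h => ?_⟩⟩
  · rintro ⟨μ, h⟩
    rw [lam_eq hd hint h]
    exact norm_pos_iff.2 (moment_ne_zero hd hint (h.bd hd) h.pb_eq h.pos)
  · refine ⟨lam_eq hd hint h, int_eval hd (h.bd hd) h.pb_eq, fun μ' h' => ?_⟩
    have hm : (∫ z, μ z * z ^ (d - 2)) ≠ 0 := moment_ne_zero hd hint (h.bd hd) h.pb_eq h.pos
    refine ⟨(∫ z, μ' z * z ^ (d - 2)) / ∫ z, μ z * z ^ (d - 2), ?_, ?_⟩
    · rw [norm_div, ← lam_eq hd hint h, ← lam_eq hd hint h', div_self]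
      rw [lam_eq hd hint h]
      exact norm_ne_zero_iff.2 hm
    · filter_upwards [unique hd hint (h.bd hd) (h'.bd hd) h.pb_eq h'.pb_eq] with z hz
      rw [div_mul_eq_mul_div, hz, mul_div_cancel_left₀ _ hm]

end Pool.Agent.Results.MP_70a088_an.LineFieldDuality
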