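import Mathlib
import Pool.Agent.X151.PD.Exist

/-!
# Invariant Beltrami differentials of a polynomial and bounded functionals on polynomials

For every polynomial `f` of degree `d ≥ 2` the invariant bounded Beltrami differentials supported on the Julia set
are exactly the functionals on polynomials which are bounded in `L¹(J(f))` and satisfy the relations
`L(f' z ^ j (a ∘ f)) = 0`, `j < d - 1`, and `L(f' z ^ (d - 1) (a ∘ f)) = L(a) / lc(f)`. The functionals with these
relations form a space of dimension `d - 1`, with the values at `1, z, …, z ^ (d - 2)` as coordinates.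
-/

set_option autoImplicit false

open Filter Topology Metric MeasureTheory Set Polynomial

namespace Pool.Agent.Results.MP_70a088_an.PolynomialDuality

open Pool.Agent.X151.PD

/-- `μ` is an invariant Beltrami differential of `f`, bounded by `B` and supported on the Julia set -/
structure Beltrami (f : ℂ[X]) (μ : ℂ → ℂ) (B : ℝ) : Prop where
  meas : Measurable μ
  bound : ∀ z, ‖μ z‖ ≤ B
  supp : ∀ z, μ z ≠ 0 → z ∈ frontier (K f)
  inv : ∀ᵐ z, μ (f.eval z) * (starRingEnd ℂ) (f.derivative.eval z) / f.derivative.eval z = μ z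

/-- `μ` is an invariant line field of `f` supported on the Julia set -/
structure LineField (f : ℂ[X]) (μ : ℂ → ℂ) : Prop where
  meas : Measurable μ
  unit : ∀ z, ‖μ z‖ = 1 ∨ μ z = 0
  supp : ∀ z, μ z ≠ 0 → z ∈ frontier (K f)
  pos : 0 < volume {z | μ z ≠ 0}
  inv : ∀ᵐ z, μ (f.eval z) * (starRingEnd ℂ) (f.derivative.eval z) / f.derivative.eval z = μ z

theorem Beltrami.bd {f : ℂ[X]} {μ : ℂ → ℂ} {B : ℝ} (h : Beltrami f μ B) : Bd f μ B :=
  ⟨h.meas, h.bound, fun z hz => by
    by_contra hne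
    exact hz (h.supp z hne)⟩

theorem Beltrami.pb_eq {f : ℂ[X]} {μ : ℂ → ℂ} {B : ℝ} (h : Beltrami f μ B) :
    pb f μ =ᵐ[volume] μ := h.inv

theorem LineField.beltrami {f : ℂ[X]} {μ : ℂ → ℂ} (h : LineField f μ) : Beltrami f μ 1 :=
  ⟨h.meas, fun z => by
    rcases h.unit z with h1 | h1
    · exact h1.le
    · rw [h1, norm_zero]
      exact zero_le_one, h.supp, h.inv⟩

theorem beltrami_of {f : ℂ[X]} {μ : ℂ → ℂ} {B : ℝ} (h : Bd f μ B) (hinv : pb f μ =ᵐ[volume] μ) :
    Beltrami f μ B :=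
  ⟨h.meas, h.bound, fun z hz => by
    by_contra hne
    exact hz (h.supp z hne), hinv⟩

theorem sub_bd {f : ℂ[X]} {μ μ' : ℂ → ℂ} {B B' : ℝ} (h : Bd f μ B) (h' : Bd f μ' B') :
    Bd f (fun z => μ z - μ' z) (B + B') :=
  ⟨h.meas.sub h'.meas, fun z => (norm_sub_le _ _).trans (add_le_add (h.bound z) (h'.bound z)),
    fun z hz => by rw [h.supp z hz, h'.supp z hz, sub_zero]⟩

theorem sub_inv {f : ℂ[X]} {μ μ' : ℂ → ℂ} (h : pb f μ =ᵐ[volume] μ) (h' : pb f μ' =ᵐ[volume] μ') :
    pb f (fun z => μ z - μ' z) =ᵐ[volume] fun z => μ z - μ' z := by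
  filter_upwards [h, h'] with z hz hz'
  rw [← hz, ← hz']
  unfold pb
  ring

/-- a bounded invariant differential is determined by its first `d - 1` moments -/
theorem determined {f : ℂ[X]} (hd : 2 ≤ f.natDegree) {μ μ' : ℂ → ℂ} {B B' : ℝ}
    (h : Beltrami f μ B) (h' : Beltrami f μ' B')
    (hm : ∀ j : ℕ, j + 1 < f.natDegree → ∫ z, μ z * z ^ j = ∫ z, μ' z * z ^ j) :
    ∀ᵐ z, μ z = μ' z := by
  have hs := sub_bd h.bd h'.bd
  have hr := Lm_rel hd hs (sub_inv h.pb_eq h'.pb_eq)
  have h0 : Lm hd hs = 0 := by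
    refine rel_zero hd hr fun j hj => ?_
    show ∫ z, (μ z - μ' z) * (X ^ j : ℂ[X]).eval z = 0
    have e : ∀ z, (μ z - μ' z) * (X ^ j : ℂ[X]).eval z = μ z * z ^ j - μ' z * z ^ j := by
      intro z
      rw [eval_pow, eval_X]
      ring
    rw [integral_congr_ae (Eventually.of_forall e),
      integral_sub (h.bd.int hd (continuous_pow j)) (h'.bd.int hd (continuous_pow j)), hm j hj,
      sub_self]
  filter_upwards [ae_of_Lm hd hs h0] with z hz
  exact sub_eq_zero.1 hz

/-- **Invariant Beltrami differentials of polynomials and bounded functionals.** -/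
theorem result (f : ℂ[X]) (hd : 2 ≤ f.natDegree) :
    -- the functionals with the relations: unique existence for given values on low powers
    (∀ v : Fin (f.natDegree - 1) → ℂ, ∃! L : ℂ[X] →ₗ[ℂ] ℂ,
      IsRel f L ∧ ∀ j : Fin (f.natDegree - 1), L (X ^ (j : ℕ)) = v j) ∧
    -- such a functional is bounded by `C` in `L¹(J)` if and only if it is given by a differential bounded by `C`
    (∀ (L : ℂ[X] →ₗ[ℂ] ℂ) (C : ℝ), 0 ≤ C →
      ((IsRel f L ∧ ∀ p : ℂ[X], ‖L p‖ ≤ C * ∫ z in frontier (K f), ‖p.eval z‖) ↔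
        ∃ μ, Beltrami f μ C ∧ ∀ p : ℂ[X], ∫ z, μ z * p.eval z = L p)) ∧
    -- the differential is determined by its first `d - 1` moments
    (∀ (μ μ' : ℂ → ℂ) (C C' : ℝ), Beltrami f μ C → Beltrami f μ' C' →
      (∀ j : ℕ, j + 1 < f.natDegree → ∫ z, μ z * z ^ j = ∫ z, μ' z * z ^ j) →
        ∀ᵐ z, μ z = μ' z) ∧
    -- criterion for invariant line fields
    ((∃ μ, LineField f μ) ↔ ∃ L : ℂ[X] →ₗ[ℂ] ℂ, L ≠ 0 ∧ IsRel f L ∧
      ∃ C : ℝ, ∀ p : ℂ[X], ‖L p‖ ≤ C * ∫ z in frontier (K f), ‖p.eval z‖) := by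
  have hJ : frontier (K f) = J f := rfl
  refine ⟨fun v => ?_, fun L C hC => ⟨?_, ?_⟩, fun μ μ' C C' h h' => determined hd h h', ⟨?_, ?_⟩⟩
  · obtain ⟨L, hL, hv⟩ := exists_rel hd fun j => if h : j < f.natDegree - 1 then v ⟨j, h⟩ else 0
    refine ⟨L, ⟨hL, fun j => ?_⟩, ?_⟩
    · have := j.2
      rw [hv (j : ℕ) (by omega), dif_pos j.2]
    · rintro L' ⟨hL', hv'⟩
      have h1 : IsRel f (L' + (-1 : ℂ) • L) := hL'.add (hL.smul _)
      have h2 := rel_zero hd h1 fun j hj => by
        rw [LinearMap.add_apply, LinearMap.smul_apply, hv j hj, dif_pos (by omega),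
          hv' ⟨j, by omega⟩]
        simp
      ext1 n
      ext
      have h3 := LinearMap.congr_fun h2 (monomial n 1)
      simp only [LinearMap.add_apply, LinearMap.smul_apply, LinearMap.zero_apply, smul_eq_mul] at h3
      simp only [LinearMap.comp_apply]
      linear_combination h3
  · rintro ⟨hL, hb⟩
    obtain ⟨μ, h1, h2, h3⟩ := exists_of_bound hd hL hC hb
    exact ⟨μ, beltrami_of h1 h2, h3⟩
  · rintro ⟨μ, hμ, hp⟩
    have e : Lm hd hμ.bd = L := by
      ext1 n
      ext
      simp only [LinearMap.comp_apply]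
      exact hp _
    refine ⟨e ▸ Lm_rel hd hμ.bd hμ.pb_eq, fun p => ?_⟩
    rw [← e]
    exact Lm_le hd hμ.bd p
  · rintro ⟨μ, h⟩
    refine ⟨Lm hd h.beltrami.bd, fun h0 => ?_, Lm_rel hd _ h.beltrami.pb_eq, 1,
      Lm_le hd h.beltrami.bd⟩
    have h1 := ae_of_Lm hd h.beltrami.bd h0
    rw [ae_iff] at h1
    exact h.pos.ne' h1
  · rintro ⟨L, hL0, hL, C, hC⟩
    have hC' : ∀ p : ℂ[X], ‖L p‖ ≤ max C 0 * ∫ z in J f, ‖p.eval z‖ := fun p =>
      (hC p).trans (mul_le_mul_of_nonneg_right (le_max_left _ _)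
        (integral_nonneg fun z => norm_nonneg _))
    obtain ⟨μ, h1, h2, h3⟩ := exists_of_bound hd hL (le_max_right _ _) hC'
    obtain ⟨h4, h5⟩ := phase hd h1 h2
    have h6 := beltrami_of h4 h5
    refine ⟨_, h6.meas, fun z => ?_, h6.supp, ?_, h6.inv⟩
    · by_cases h0 : μ z = 0
      · right
        rw [h0, zero_div]
      · left
        rw [norm_div, Complex.norm_real, norm_norm, div_self (norm_ne_zero_iff.2 h0)]
    · rw [pos_iff_ne_zero]
      intro h0
      apply hL0
      have h7 : ∀ᵐ z, μ z = 0 := by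
        have h8 : ∀ᵐ z, ¬ (μ z / (‖μ z‖ : ℂ) ≠ 0) := by
          rw [ae_iff]
          simpa using h0
        filter_upwards [h8] with z hz
        rw [not_not, div_eq_zero_iff] at hz
        rcases hz with h9 | h9
        · exact h9
        · exact norm_eq_zero.1 (by exact_mod_cast h9)
      ext1 n
      ext
      simp only [LinearMap.comp_apply, LinearMap.zero_apply]
      rw [← h3]
      have h9 : (fun z => μ z * ((monomial n) (1 : ℂ) : ℂ[X]).eval z) =ᵐ[volume] fun _ => (0 : ℂ) := by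
        filter_upwards [h7] with z hz
        rw [hz, zero_mul]
      rw [integral_congr_ae h9, integral_zero]

end Pool.Agent.Results.MP_70a088_an.PolynomialDuality
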