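import Mathlib
import Pool.Agent.X151.LF.Line
import Pool.Agent.X151.LF.Vel

/-!
# The moment of the invariant line field and the distance to the boundary of the Multibrot set

Let `f_c (z) = z ^ d + c`, `d ≥ 2`, let `K_c` be its filled Julia set and `M_d` the Multibrot set, and suppose that
`K_c` has no interior. We show `π dist (c, ℂ \ M_d) ≤ d |∫ μ z ^ (d - 2)|` for every invariant line field `μ` on the
Julia set; a line field exists if `c` is an interior point of `M_d`. Moreover the Cauchy transform of `μ` is a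
constant multiple of the Poincaré series `∑_{k ≥ 1} 1 / (f_c^k)'`.
-/

set_option autoImplicit false

open Filter Topology Metric MeasureTheory Set

namespace Pool.Agent.Results.MP_70a088_an.StableParameterMoment

open Pool.Agent.X151.LF

/-- **The moment of the line field bounds the distance to the boundary of the Multibrot set.** -/
theorem result (d : ℕ) (hd : 2 ≤ d) (c : ℂ) (hint : interior (K d c) = ∅) :
    -- a bound for the distance of `c` to the complement of the Multibrot set from every polynomial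
    (∀ p : Polynomial ℂ, Real.pi * infDist c {c' : ℂ | (0 : ℂ) ∉ K d c'} * ‖L d c p‖ ≤
      d * ∫ z in K d c, ‖p.eval z‖) ∧
    -- interior parameters carry a line field
    (0 < infDist c {c' : ℂ | (0 : ℂ) ∉ K d c'} → ∃ μ, LineField d c μ) ∧
    ∀ μ, LineField d c μ →
      -- the moment of every line field bounds the distance
      (∫ z, μ z * z ^ (d - 2)) ≠ 0 ∧
      Real.pi * infDist c {c' : ℂ | (0 : ℂ) ∉ K d c'} ≤ d * ‖∫ z, μ z * z ^ (d - 2)‖ ∧
      ((0 : ℂ) ∈ K d c → ∀ z, z ∉ K d c →
        -- the Poincaré series is a Cauchy transform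
        HasSum (fun k : ℕ => 1 / deriv (f d c)^[k + 1] z)
          (1 / (d * ∫ s, μ s * s ^ (d - 2)) * ∫ s, μ s / (z - s)) ∧
        d * ‖∫ s, μ s * s ^ (d - 2)‖ * ‖∑' k : ℕ, 1 / deriv (f d c)^[k + 1] z‖ ≤
          2 * √(Real.pi * volume.real (K d c))) := by
  have hdR : (0 : ℝ) < d := by
    have : 0 < d := by omega
    exact_mod_cast this
  have hdC : (d : ℂ) ≠ 0 := by exact_mod_cast hdR.ne'
  have hpi := Real.pi_pos
  set r : ℝ := infDist c {c' : ℂ | (0 : ℂ) ∉ K d c'} with hr
  have hlam : Real.pi * r ≤ d * lam d c := by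
    rcases (infDist_nonneg (x := c) (s := {c' : ℂ | (0 : ℂ) ∉ K d c'})).eq_or_lt with h0 | h0
    · rw [← hr] at h0
      rw [← h0, mul_zero]
      exact mul_nonneg hdR.le (lam_nonneg d c)
    · refine stable_lam hd h0 (fun c' hc' => ?_) hint
      by_contra hcon
      have h1 : r ≤ dist c c' := infDist_le_dist_of_mem hcon
      rw [mem_ball, dist_comm] at hc'
      linarith
  refine ⟨fun p => ?_, fun h0 => ?_, fun μ h =>
    ⟨moment_ne_zero hd hint (h.bd hd) h.pb_eq h.pos, ?_, fun hc z hz => ?_⟩⟩
  · calc Real.pi * r * ‖L d c p‖ ≤ d * lam d c * ‖L d c p‖ :=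
          mul_le_mul_of_nonneg_right hlam (norm_nonneg _)
      _ = d * (lam d c * ‖L d c p‖) := mul_assoc _ _ _
      _ ≤ d * ∫ z in K d c, ‖p.eval z‖ := mul_le_mul_of_nonneg_left (lam_le d c p) hdR.le
  · refine exists_lineField hd hint ?_
    have h1 : 0 < d * lam d c := lt_of_lt_of_le (by positivity) hlam
    exact (pos_iff_pos_of_mul_pos h1).1 hdR
  · rw [← h.lam_eq hd hint]
    exact hlam
  · have hm : (∫ z, μ z * z ^ (d - 2)) ≠ 0 :=
      moment_ne_zero hd hint (h.bd hd) h.pb_eq h.pos
    have h1 := velocity hd hc (h.bd hd) h.pb_eq hz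
    have h2 : ∫ s, μ s / (z - s) = ∫ s, μ s * (1 / (z - s)) :=
      integral_congr_ae (Eventually.of_forall fun s => by beta_reduce; rw [mul_one_div])
    have h3 := hasSum_V hd (c := c) hz
    refine ⟨?_, ?_⟩
    · rw [h2, h1]
      have h4 : 1 / (d * ∫ s, μ s * s ^ (d - 2)) *
          -(d * (∫ s, μ s * s ^ (d - 2)) * Pool.Agent.X151.MU.V d c z) =
          -Pool.Agent.X151.MU.V d c z := by
        field_simp
      rw [h4]
      exact h3
    · rw [h3.tsum_eq]
      have h5 := transform_le hd (h.bd hd) hz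
      rw [h1, norm_neg, norm_mul, norm_mul, Complex.norm_natCast, one_mul] at h5
      rwa [norm_neg]

end Pool.Agent.Results.MP_70a088_an.StableParameterMoment
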