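import Mathlib
import Pool.Agent.X151.PD.Dim

/-!
# The velocity field of an invariant line field of a polynomial

An invariant line field on the Julia set of an arbitrary polynomial `f` gives a direction `Q ≠ 0` in the space of
polynomials, `deg Q ≤ deg f - 2`, in which the multiplicities of the critical points persist and in which the critical
orbits and the periodic points of `f + t Q` move with bounded velocities at `t = 0`, which are the values of a
log-Lipschitz vector field.
-/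

set_option autoImplicit false

open Filter Topology Metric MeasureTheory Set Polynomial

namespace Pool.Agent.Results.MP_70a088_an.VelocityField

open Pool.Agent.X151.PD

/-- `μ` is an invariant Beltrami differential of `f`, bounded by `B` and supported on the Julia set -/
structure Beltrami (f : ℂ[X]) (μ : ℂ → ℂ) (B : ℝ) : Prop where
  meas : Measurable μ
  bound : ∀ z, ‖μ z‖ ≤ B
  supp : ∀ z, μ z ≠ 0 → z ∈ frontier (K f)
  inv : ∀ᵐ z, μ (f.eval z) * (starRingEnd ℂ) (f.derivative.eval z) / f.derivative.eval z = μ z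

/-- `μ` is an invariant line field of `f` supported on the Julia set -/
structure LineField (f : ℂ[X]) (μ : ℂ → ℂ) : Prop where
  meas : Measurable μ
  unit : ∀ z, ‖μ z‖ = 1 ∨ μ z = 0
  supp : ∀ z, μ z ≠ 0 → z ∈ frontier (K f)
  pos : 0 < volume {z | μ z ≠ 0}
  inv : ∀ᵐ z, μ (f.eval z) * (starRingEnd ℂ) (f.derivative.eval z) / f.derivative.eval z = μ z

/-- the derivative at `t = 0` of the `n`-th iterate of `f + t Q` at the point `z` -/
noncomputable def vel (f Q : ℂ[X]) (n : ℕ) (z : ℂ) : ℂ :=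
  deriv (fun t : ℂ => (fun w => (f + C t * Q).eval w)^[n] z) 0

/-- the modulus of continuity -/
noncomputable def modulus (A t : ℝ) : ℝ :=
  Real.pi * t * (4 + Real.log (1 + 4 * A / (Real.pi * t ^ 2)))

theorem Beltrami.bd {f : ℂ[X]} {μ : ℂ → ℂ} {B : ℝ} (h : Beltrami f μ B) : Bd f μ B :=
  ⟨h.meas, h.bound, fun z hz => by
    by_contra hne
    exact hz (h.supp z hne)⟩

theorem Beltrami.pb_eq {f : ℂ[X]} {μ : ℂ → ℂ} {B : ℝ} (h : Beltrami f μ B) :
    pb f μ =ᵐ[volume] μ := h.inv

theorem LineField.beltrami {f : ℂ[X]} {μ : ℂ → ℂ} (h : LineField f μ) : Beltrami f μ 1 :=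
  ⟨h.meas, fun z => by
    rcases h.unit z with h1 | h1
    · exact h1.le
    · rw [h1, norm_zero]
      exact zero_le_one, h.supp, h.inv⟩

theorem modulus_le {f : ℂ[X]} (hd : 2 ≤ f.natDegree) {μ : ℂ → ℂ} {B : ℝ} (h : Bd f μ B) (z w : ℂ) :
    ‖CF μ z - CF μ w‖ ≤ B * modulus (volume.real (frontier (K f))) ‖z - w‖ :=
  log_lip (isCompact_J hd).measurableSet (isCompact_J hd).measure_lt_top.ne h.meas h.bound h.supp z w

theorem vel_eq {f : ℂ[X]} (hd : 2 ≤ f.natDegree) {μ : ℂ → ℂ} {B : ℝ} (h : Bd f μ B)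
    (hinv : pb f μ =ᵐ[volume] μ) (n : ℕ) (z : ℂ) :
    vel f (QQ f fun j => ∫ s, μ s * s ^ j) n z =
      deriv (fun w => f.eval w)^[n] z * CF μ z - CF μ ((fun w => f.eval w)^[n] z) := by
  rw [vel, (hasDerivAt_DD _ _ _ _).deriv, (hasDerivAt_iter f z n).deriv, CF_iter hd h hinv]
  ring

theorem deriv_crit {f : ℂ[X]} {c : ℂ} (hc : f.derivative.eval c = 0) {n : ℕ} (hn : 1 ≤ n) :
    deriv (fun w => f.eval w)^[n] c = 0 := by
  rw [(hasDerivAt_iter f c n).deriv]
  refine Finset.prod_eq_zero (Finset.mem_range.2 hn) ?_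
  simpa using hc

/-- **The velocity field of an invariant line field of a polynomial.** -/
theorem result (f : ℂ[X]) (hd : 2 ≤ f.natDegree) :
    -- bounded invariant Beltrami differentials
    (∀ (μ : ℂ → ℂ) (B : ℝ), Beltrami f μ B → ∃ (Q : ℂ[X]) (F : ℂ → ℂ),
      Q.natDegree ≤ f.natDegree - 2 ∧
      ((∀ c, f.derivative.eval c = 0 → F (f.eval c) = 0) → ∀ᵐ z, μ z = 0) ∧
      (∀ (c : ℂ) (m : ℕ), 1 ≤ m → (X - C c) ^ m ∣ f.derivative →
        (X - C c) ^ m ∣ Q - C (Q.eval c)) ∧
      (∀ z, F z = ∫ s, μ s / (z - s)) ∧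
      (∀ z, ‖F z‖ ≤ B * (2 * √(Real.pi * volume.real (frontier (K f))))) ∧
      (∀ z w, ‖F z - F w‖ ≤ B * modulus (volume.real (frontier (K f))) ‖z - w‖) ∧
      (∀ z, F (f.eval z) = f.derivative.eval z * F z - Q.eval z) ∧
      (∀ (n : ℕ) (z : ℂ), vel f Q n z =
        deriv (fun w => f.eval w)^[n] z * F z - F ((fun w => f.eval w)^[n] z)) ∧
      (∀ c, f.derivative.eval c = 0 →
        Q.derivative.eval c = f.derivative.derivative.eval c * F c)) ∧
    -- no more independent differentials than critical values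
    (∀ (n : ℕ) (μ : Fin n → ℂ → ℂ) (B : Fin n → ℝ), (∀ i, Beltrami f (μ i) (B i)) →
      ((fun w => f.eval w) '' {c | f.derivative.eval c = 0}).ncard < n →
        ∃ a : Fin n → ℂ, a ≠ 0 ∧ ∀ᵐ z, ∑ i, a i * μ i z = 0) ∧
    -- invariant line fields
    (∀ μ : ℂ → ℂ, LineField f μ → ∃ Q : ℂ[X], Q.natDegree ≤ f.natDegree - 2 ∧
      -- some critical value moves
      (∃ c, f.derivative.eval c = 0 ∧ Q.eval c ≠ 0) ∧
      -- the multiplicities of the critical points persist
      (∀ (c : ℂ) (m : ℕ), 1 ≤ m → (X - C c) ^ m ∣ f.derivative →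
        (X - C c) ^ m ∣ Q - C (Q.eval c)) ∧
      -- the critical orbits have bounded velocities
      (∀ (c : ℂ) (n : ℕ), f.derivative.eval c = 0 →
        ‖vel f Q n c‖ ≤ 2 * √(Real.pi * volume.real (frontier (K f)))) ∧
      -- nearby points of the critical orbits have nearby velocities
      (∀ (c c' : ℂ) (n n' : ℕ), f.derivative.eval c = 0 → f.derivative.eval c' = 0 → 1 ≤ n →
        1 ≤ n' → ‖vel f Q n c - vel f Q n' c'‖ ≤ modulus (volume.real (frontier (K f)))
          ‖(fun w => f.eval w)^[n] c - (fun w => f.eval w)^[n'] c'‖) ∧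
      -- close returns to the critical points
      (∀ (c c' : ℂ) (n : ℕ), f.derivative.eval c = 0 → f.derivative.eval c' = 0 →
        f.derivative.derivative.eval c' ≠ 0 → 1 ≤ n →
        ‖vel f Q n c - (-Q.derivative.eval c' / f.derivative.derivative.eval c')‖ ≤
          modulus (volume.real (frontier (K f))) ‖(fun w => f.eval w)^[n] c - c'‖) ∧
      -- periodic points have bounded velocities
      (∀ (z : ℂ) (n : ℕ), (fun w => f.eval w)^[n] z = z →
        ‖vel f Q n z‖ ≤ 2 * √(Real.pi * volume.real (frontier (K f))) *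
          ‖deriv (fun w => f.eval w)^[n] z - 1‖)) := by
  have key : ∀ (μ : ℂ → ℂ) (B : ℝ), Beltrami f μ B → ∃ (Q : ℂ[X]) (F : ℂ → ℂ),
      Q.natDegree ≤ f.natDegree - 2 ∧
      ((∀ c, f.derivative.eval c = 0 → F (f.eval c) = 0) → ∀ᵐ z, μ z = 0) ∧
      (∀ (c : ℂ) (m : ℕ), 1 ≤ m → (X - C c) ^ m ∣ f.derivative →
        (X - C c) ^ m ∣ Q - C (Q.eval c)) ∧
      (∀ z, F z = ∫ s, μ s / (z - s)) ∧
      (∀ z, ‖F z‖ ≤ B * (2 * √(Real.pi * volume.real (frontier (K f))))) ∧
      (∀ z w, ‖F z - F w‖ ≤ B * modulus (volume.real (frontier (K f))) ‖z - w‖) ∧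
      (∀ z, F (f.eval z) = f.derivative.eval z * F z - Q.eval z) ∧
      (∀ (n : ℕ) (z : ℂ), vel f Q n z =
        deriv (fun w => f.eval w)^[n] z * F z - F ((fun w => f.eval w)^[n] z)) ∧
      (∀ c, f.derivative.eval c = 0 →
        Q.derivative.eval c = f.derivative.derivative.eval c * F c) := by
    intro μ B h
    exact ⟨QQ f fun j => ∫ s, μ s * s ^ j, CF μ, QQ_natDegree hd _, ae_of_crit hd h.bd h.pb_eq,
      fun c m hm hc => dvd_QQ hd h.bd h.pb_eq hm hc, fun z => rfl, CF_le hd h.bd,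
      modulus_le hd h.bd, CF_eq hd h.bd h.pb_eq, vel_eq hd h.bd h.pb_eq,
      fun c hc => crit_velocity hd h.bd h.pb_eq hc⟩
  refine ⟨key, fun n μ B h hn => dependent hd (fun i => (h i).bd) (fun i => (h i).pb_eq) hn,
    fun μ h => ?_⟩
  obtain ⟨Q, F, h1, h2, h3, -, h4, h5, h0, h6, h7⟩ := key μ 1 h.beltrami
  simp only [one_mul] at h4 h5
  refine ⟨Q, h1, ?_, h3, fun c n hc => ?_, fun c c' n n' hc hc' hn hn' => ?_,
    fun c c' n hc hc' hc2 hn => ?_, fun z n hz => ?_⟩
  · by_contra hcon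
    have h8 := h2 fun c hc => by
      rw [h0, hc, zero_mul, zero_sub, neg_eq_zero]
      by_contra hne
      exact hcon ⟨c, hc, hne⟩
    rw [ae_iff] at h8
    exact h.pos.ne' h8
  · rcases Nat.eq_zero_or_pos n with rfl | hn
    · rw [h6]
      simp only [Function.iterate_zero, id_eq]
      rw [deriv_id', one_mul, sub_self, norm_zero]
      positivity
    · rw [h6, deriv_crit hc hn, zero_mul, zero_sub, norm_neg]
      exact h4 _
  · rw [h6, h6, deriv_crit hc hn, deriv_crit hc' hn', zero_mul, zero_mul, zero_sub, zero_sub,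
      sub_neg_eq_add, neg_add_eq_sub, norm_sub_rev]
    exact h5 _ _
  · have e : -Q.derivative.eval c' / f.derivative.derivative.eval c' = -F c' := by
      rw [h7 c' hc', neg_div, mul_div_cancel_left₀ _ hc2]
    rw [h6, deriv_crit hc hn, zero_mul, zero_sub, e, sub_neg_eq_add, neg_add_eq_sub, norm_sub_rev]
    exact h5 _ _
  · rw [h6, hz]
    have e : deriv (fun w => f.eval w)^[n] z * F z - F z =
        F z * (deriv (fun w => f.eval w)^[n] z - 1) := by ring
    rw [e, norm_mul]
    exact mul_le_mul_of_nonneg_right (h4 z) (norm_nonneg _)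

end Pool.Agent.Results.MP_70a088_an.VelocityField
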